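import Pool.Agent.H705.RO.Stm2

/-! # Project RO (helper705), part LBC (helper897), after part LOB (helper686) -/

set_option autoImplicit false

namespace Pool.Agent.H897.RO

open Pool.Agent.H705.RO
open MeasureTheory ProbabilityTheory Filter Topology Finset

lemma exp_sub_one_le {y : ℝ} (h0 : 0 ≤ y) (h1 : y ≤ 1) : Real.exp y - 1 ≤ 2 * y := by
  have h := Real.abs_exp_sub_one_le (x := y) (by rw [abs_of_nonneg h0]; exact h1)
  rw [abs_of_nonneg h0] at h
  exact (le_abs_self _).trans h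

/-- the second term -/
lemma prod_bound {A : ℕ} {g w : ℕ → ℝ} (hw : Win A g w) {N m : ℕ} (hN : 1 ≤ N) (hm : 2 ≤ m) :
    ∏ n ∈ range N, (1 + 2 * Real.pi / (w n * ((N : ℝ) + 2) ^ (A + (m + 1)))) - 1 ≤
      14 / ((N : ℝ) + 2) ^ m := by
  have hN' : (1 : ℝ) ≤ N := by exact_mod_cast hN
  have hpi := Real.pi_lt_d2
  have hpi0 := Real.pi_pos
  have hN2 : (0 : ℝ) < (N : ℝ) + 2 := by linarith
  have hterm : ∀ n ∈ range N, 1 + 2 * Real.pi / (w n * ((N : ℝ) + 2) ^ (A + (m + 1))) ≤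
      Real.exp (7 / ((N : ℝ) + 2) ^ (m + 1)) := by
    intro n hn
    have hn' : (n : ℝ) ≤ N := by exact_mod_cast (mem_range.1 hn).le
    have h1 := (hw n).2.1
    have h2 : (0 : ℝ) < ((n : ℝ) + 2) ^ A := by positivity
    have h3 : ((n : ℝ) + 2) ^ A ≤ ((N : ℝ) + 2) ^ A := pow_le_pow_left₀ (by positivity) (by linarith) A
    have hwpos : 0 < w n := lt_of_lt_of_le (by positivity) h1
    have h4 : 1 ≤ w n * ((N : ℝ) + 2) ^ A := by
      rw [div_le_iff₀ h2] at h1
      calc (1 : ℝ) ≤ w n * ((n : ℝ) + 2) ^ A := h1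
        _ ≤ w n * ((N : ℝ) + 2) ^ A := by gcongr
    have h5 : 2 * Real.pi / (w n * ((N : ℝ) + 2) ^ (A + (m + 1))) ≤ 7 / ((N : ℝ) + 2) ^ (m + 1) := by
      rw [div_le_div_iff₀ (by positivity) (by positivity), pow_add _ A (m + 1)]
      have h6 : (0 : ℝ) < ((N : ℝ) + 2) ^ (m + 1) := by positivity
      calc 2 * Real.pi * ((N : ℝ) + 2) ^ (m + 1) ≤ 7 * ((N : ℝ) + 2) ^ (m + 1) := by
            gcongr
            linarith
        _ = 7 * (1 * ((N : ℝ) + 2) ^ (m + 1)) := by ring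
        _ ≤ 7 * ((w n * ((N : ℝ) + 2) ^ A) * ((N : ℝ) + 2) ^ (m + 1)) := by gcongr
        _ = 7 * (w n * (((N : ℝ) + 2) ^ A * ((N : ℝ) + 2) ^ (m + 1))) := by ring
    have h7 := Real.add_one_le_exp (7 / ((N : ℝ) + 2) ^ (m + 1))
    linarith
  have hprod : ∏ n ∈ range N, (1 + 2 * Real.pi / (w n * ((N : ℝ) + 2) ^ (A + (m + 1)))) ≤
      Real.exp (7 / ((N : ℝ) + 2) ^ m) := by
    calc ∏ n ∈ range N, (1 + 2 * Real.pi / (w n * ((N : ℝ) + 2) ^ (A + (m + 1))))
        ≤ ∏ n ∈ range N, Real.exp (7 / ((N : ℝ) + 2) ^ (m + 1)) := by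
          refine prod_le_prod (fun n _ => ?_) hterm
          have h1 := (hw n).2.1
          have hwpos : 0 < w n := lt_of_lt_of_le (by positivity) h1
          positivity
      _ = Real.exp (N * (7 / ((N : ℝ) + 2) ^ (m + 1))) := by
          rw [prod_const, card_range, ← Real.exp_nat_mul]
      _ ≤ Real.exp (7 / ((N : ℝ) + 2) ^ m) := by
          apply Real.exp_le_exp.2
          rw [mul_div_assoc', div_le_div_iff₀ (by positivity) (by positivity)]
          have h6 : (0 : ℝ) < ((N : ℝ) + 2) ^ m := by positivity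
          calc (N : ℝ) * 7 * ((N : ℝ) + 2) ^ m ≤ ((N : ℝ) + 2) * 7 * ((N : ℝ) + 2) ^ m := by
                gcongr
                linarith
            _ = 7 * ((N : ℝ) + 2) ^ (m + 1) := by ring
  have h9 : (7 : ℝ) / ((N : ℝ) + 2) ^ m ≤ 1 := by
    rw [div_le_one (by positivity)]
    calc (7 : ℝ) ≤ 3 ^ 2 := by norm_num
      _ ≤ ((N : ℝ) + 2) ^ 2 := by gcongr; linarith
      _ ≤ ((N : ℝ) + 2) ^ m := pow_le_pow_right₀ (by linarith) hm
  have h10 := exp_sub_one_le (y := 7 / ((N : ℝ) + 2) ^ m) (by positivity) h9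
  have h11 : 2 * (7 / ((N : ℝ) + 2) ^ m) = 14 / ((N : ℝ) + 2) ^ m := by ring
  linarith

/-- growth, the polynomial factor -/
lemma ev_pol (n : ℕ) {c : ℝ} (hc : 0 < c) : ∀ᶠ k : ℕ in atTop,
    8 * ((k : ℝ) + 3) ^ n ≤ Real.exp (c * k) := by
  have h1 : Tendsto (fun k : ℕ => c * ((k : ℝ) + 3)) atTop atTop :=
    (tendsto_atTop_add_const_right _ _ tendsto_natCast_atTop_atTop).const_mul_atTop hc
  have h2 := (Real.tendsto_pow_mul_exp_neg_atTop_nhds_zero n).comp h1
  have h3 : (0 : ℝ) < c ^ n * Real.exp (-(3 * c)) / 8 := by positivity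
  filter_upwards [h2.eventually (gt_mem_nhds h3)] with k hk
  simp only [Function.comp_apply] at hk
  have e1 : Real.exp (-(c * ((k : ℝ) + 3))) = Real.exp (-(3 * c)) * Real.exp (-(c * k)) := by
    rw [← Real.exp_add]
    congr 1
    ring
  rw [e1, mul_pow] at hk
  have h4 : (0 : ℝ) < c ^ n * Real.exp (-(3 * c)) := by positivity
  have h5 : ((k : ℝ) + 3) ^ n * Real.exp (-(c * k)) < 1 / 8 := by
    have h6 : c ^ n * Real.exp (-(3 * c)) * (((k : ℝ) + 3) ^ n * Real.exp (-(c * k))) <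
        c ^ n * Real.exp (-(3 * c)) * (1 / 8) := by
      calc _ = c ^ n * ((k : ℝ) + 3) ^ n * (Real.exp (-(3 * c)) * Real.exp (-(c * k))) := by ring
        _ < _ := hk
        _ = _ := by ring
    exact lt_of_mul_lt_mul_left h6 h4.le
  rw [Real.exp_neg, ← div_eq_mul_inv, div_lt_iff₀ (Real.exp_pos _)] at h5
  linarith

/-- growth, the exponent -/
lemma ev_exp {θ l c : ℝ} (hθ : θ < 1) (hl : 0 < l) (hc : 0 < c) : ∀ᶠ k : ℕ in atTop,
    l * ((k : ℝ) ^ θ + 1) ≤ c * k := by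
  have h1 : Tendsto (fun x : ℝ => x ^ (-(1 - θ))) atTop (𝓝 0) :=
    tendsto_rpow_neg_atTop (by linarith)
  have h2 := h1.comp (tendsto_natCast_atTop_atTop (R := ℝ))
  have h3 : (0 : ℝ) < c / (2 * l) := by positivity
  filter_upwards [h2.eventually (gt_mem_nhds h3), eventually_ge_atTop 1,
    (tendsto_natCast_atTop_atTop (R := ℝ)).eventually_ge_atTop (2 * l / c)] with k hk hk1 hk2
  simp only [Function.comp_apply] at hk
  have hk0 : (0 : ℝ) < k := by exact_mod_cast hk1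
  have e1 : (k : ℝ) ^ θ = k * (k : ℝ) ^ (-(1 - θ)) := by
    have : (k : ℝ) ^ θ = (k : ℝ) ^ ((1 : ℝ) + -(1 - θ)) := by congr 1; ring
    rw [this, Real.rpow_add hk0, Real.rpow_one]
  have h4 : l * (k : ℝ) ^ θ ≤ c * k / 2 := by
    rw [e1]
    rw [lt_div_iff₀ (by positivity)] at hk
    nlinarith
  have h5 : l ≤ c * k / 2 := by
    rw [div_le_iff₀ hc] at hk2
    linarith
  linarith

theorem T_LBC (hLOV : P_LOV) : P_LBC := by
  classical
  intro Ω _ P X hX a β g w s A ha hw δ θ hδ hδ1 hθ hθ1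
  have := hX.prob
  obtain ⟨ha0, ha1⟩ := ha
  obtain ⟨C0, hC0⟩ := ha1 (1 / 2) (by norm_num)
  set C := max C0 1 with hCdef
  have hC1 : 1 ≤ C := le_max_right _ _
  have hwpos : ∀ n, 0 < w n := fun n => lt_of_lt_of_le (by positivity) (hw n).2.1
  set m : ℕ := ⌈4 / θ⌉₊ with hm
  have hmθ : 4 ≤ θ * m := by
    have h1 : 4 / θ ≤ m := Nat.le_ceil _
    rw [div_le_iff₀ hθ] at h1
    linarith
  have hm2 : 2 ≤ m := by
    have h1 : (2 : ℝ) ≤ m := by nlinarith [(Nat.cast_nonneg m : (0 : ℝ) ≤ m)]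
    exact_mod_cast h1
  set l : ℝ := Real.log (1 / δ) with hl
  have hl0 : 0 < l := Real.log_pos (by rw [lt_div_iff₀ hδ]; linarith)
  have hlog2 : 0 < Real.log 2 := Real.log_pos (by norm_num)
  let Bad : ℕ → Set Ω := fun k => {ω | (volume : Measure ℝ) {t : ℝ | 0 ≤ t ∧ t ≤ 2 ^ k ∧
    (∀ n < Nk θ k, nr δ (arg g w s (fun n => X n ω) n t)) ∧
    |∑ n ∈ Ico (Nk θ k) (Nk θ k + k ^ 4), wave a β g w (fun n => X n ω) n t| ≤ 1} <
      ENNReal.ofReal (2 ^ k * δ ^ Nk θ k / 4)}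
  obtain ⟨k₀, hk₀⟩ := eventually_atTop.1 ((ev_pol (A + (m + 1) + 2) (half_pos hlog2)).and
    ((ev_exp hθ1 hl0 (half_pos hlog2)).and (eventually_ge_atTop 1)))
  let Bd : ℕ → Set Ω := fun k => if k₀ ≤ k then Bad k else ∅
  have hbound : ∀ k, P (Bd k) ≤ ENNReal.ofReal
      ((1 + 56 + 8 * (m.factorial * (2 * C) ^ m)) * (1 / (k : ℝ) ^ 2)) := by
    intro k
    by_cases hk : k₀ ≤ k
    · obtain ⟨g1, g2, g3⟩ := hk₀ k hk
      have hk1 : (1 : ℝ) ≤ k := by exact_mod_cast g3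
      have hk0 : (0 : ℝ) < k := by linarith
      have hy1 : (1 : ℝ) ≤ (k : ℝ) ^ θ := Real.one_le_rpow hk1 hθ.le
      have hy0 : (0 : ℝ) < (k : ℝ) ^ θ := by linarith
      set N := Nk θ k with hN
      have hNy : (k : ℝ) ^ θ ≤ N := Nat.le_ceil _
      have hNy' : (N : ℝ) ≤ (k : ℝ) ^ θ + 1 := (Nat.ceil_lt_add_one hy0.le).le
      have hN1' : (1 : ℝ) ≤ N := hy1.trans hNy
      have hN1 : 1 ≤ N := by exact_mod_cast hN1'
      have hN0 : (0 : ℝ) < N := by linarith
      have hyk : (k : ℝ) ^ θ ≤ k := by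
        calc (k : ℝ) ^ θ ≤ (k : ℝ) ^ (1 : ℝ) := Real.rpow_le_rpow_of_exponent_le hk1 hθ1.le
          _ = k := Real.rpow_one _
      have hv : ∑ n ∈ Ico N (N + k ^ 4), a n ^ 2 ≤ C * (N : ℝ) ^ (-1 / 2 : ℝ) := by
        have h1 := hC0 N (N + k ^ 4) hN1 (Nat.le_add_right _ _)
        have h2 : (-1 + 1 / 2 : ℝ) = -1 / 2 := by norm_num
        rw [h2] at h1
        have h3 : (0 : ℝ) ≤ (N : ℝ) ^ (-1 / 2 : ℝ) := by positivity
        exact h1.trans (mul_le_mul_of_nonneg_right (le_max_left _ _) h3)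
      have hx : (0 : ℝ) < (N : ℝ) ^ (-1 / 2 : ℝ) := Real.rpow_pos_of_pos hN0 _
      have h1 := hLOV Ω P X hX a β g w s ha0 hwpos δ (((N : ℝ) + 2) ^ (A + (m + 1)))
        (C * (N : ℝ) ^ (-1 / 2 : ℝ)) (2 ^ k) hδ hδ1.le
        (by positivity) (by positivity) (by positivity) N (N + k ^ 4) (Nat.le_add_right _ _) hv
      have e : Bd k = Bad k := if_pos hk
      rw [e]
      refine h1.trans (ENNReal.ofReal_le_ofReal ?_)
      have hk2 : (0 : ℝ) < (k : ℝ) ^ 2 := by positivity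
      have t1 : 8 * ((N : ℝ) + 2) ^ (A + (m + 1)) / (2 ^ k * δ ^ N) ≤ 1 / (k : ℝ) ^ 2 := by
        have hδN : δ ^ N = Real.exp (-(l * N)) := by
          have : δ = Real.exp (-l) := by
            rw [hl, one_div, Real.log_inv, neg_neg, Real.exp_log hδ]
          rw [this, ← Real.exp_nat_mul]
          congr 1
          have e2 : Real.log (1 / Real.exp (-l)) = l := by
            rw [one_div, Real.log_inv, Real.log_exp, neg_neg]
          ring
        have h2k : (2 : ℝ) ^ k = Real.exp (Real.log 2 / 2 * k) * Real.exp (Real.log 2 / 2 * k) := by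
          rw [← Real.exp_add, show Real.log 2 / 2 * (k : ℝ) + Real.log 2 / 2 * k = k * Real.log 2 by
            ring, Real.exp_nat_mul, Real.exp_log (by norm_num)]
        have h3 : Real.exp (-(Real.log 2 / 2 * k)) ≤ δ ^ N := by
          rw [hδN]
          apply Real.exp_le_exp.2
          have : l * N ≤ l * ((k : ℝ) ^ θ + 1) := mul_le_mul_of_nonneg_left hNy' hl0.le
          linarith
        have h4 : Real.exp (Real.log 2 / 2 * k) ≤ 2 ^ k * δ ^ N := by
          rw [h2k]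
          have h5 : Real.exp (Real.log 2 / 2 * k) * Real.exp (-(Real.log 2 / 2 * k)) = 1 := by
            rw [← Real.exp_add, add_neg_cancel, Real.exp_zero]
          calc Real.exp (Real.log 2 / 2 * k) = Real.exp (Real.log 2 / 2 * k) *
                (Real.exp (Real.log 2 / 2 * k) * Real.exp (-(Real.log 2 / 2 * k))) := by
                rw [h5, mul_one]
            _ = Real.exp (Real.log 2 / 2 * k) * Real.exp (Real.log 2 / 2 * k) *
                Real.exp (-(Real.log 2 / 2 * k)) := by ring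
            _ ≤ _ := mul_le_mul_of_nonneg_left h3 (by positivity)
        have hδN0 : 0 < δ ^ N := pow_pos hδ N
        rw [div_le_div_iff₀ (by positivity) hk2]
        have h5 : ((N : ℝ) + 2) ^ (A + (m + 1)) ≤ ((k : ℝ) + 3) ^ (A + (m + 1)) :=
          pow_le_pow_left₀ (by positivity) (by linarith) _
        have h6 : (k : ℝ) ^ 2 ≤ ((k : ℝ) + 3) ^ 2 := pow_le_pow_left₀ hk0.le (by linarith) _
        calc 8 * ((N : ℝ) + 2) ^ (A + (m + 1)) * (k : ℝ) ^ 2
            ≤ 8 * ((k : ℝ) + 3) ^ (A + (m + 1)) * ((k : ℝ) + 3) ^ 2 :=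
              mul_le_mul (by linarith) h6 (by positivity) (by positivity)
          _ = 8 * ((k : ℝ) + 3) ^ (A + (m + 1) + 2) := by rw [pow_add _ _ 2]; ring
          _ ≤ Real.exp (Real.log 2 / 2 * k) := g1
          _ ≤ 2 ^ k * δ ^ N := h4
          _ = 1 * (2 ^ k * δ ^ N) := (one_mul _).symm
      have hky : (k : ℝ) ^ 2 ≤ (((k : ℝ) ^ θ) ^ (1 / 2 : ℝ)) ^ m := by
        rw [← Real.rpow_natCast _ m, ← Real.rpow_mul hk0.le, ← Real.rpow_mul hk0.le,
          ← Real.rpow_natCast (k : ℝ) 2]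
        apply Real.rpow_le_rpow_of_exponent_le hk1
        push_cast
        nlinarith
      have hkN : (k : ℝ) ^ 2 ≤ ((N : ℝ) ^ (1 / 2 : ℝ)) ^ m :=
        hky.trans (pow_le_pow_left₀ (by positivity)
          (Real.rpow_le_rpow hy0.le hNy (by norm_num)) m)
      have t2 : 4 * (∏ n ∈ range N, (1 + 2 * Real.pi / (w n * ((N : ℝ) + 2) ^ (A + (m + 1)))) - 1) ≤
          56 * (1 / (k : ℝ) ^ 2) := by
        have h2 := prod_bound hw hN1 hm2
        have h3 : 14 / ((N : ℝ) + 2) ^ m ≤ 14 / (k : ℝ) ^ 2 := by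
          apply div_le_div_of_nonneg_left (by norm_num) hk2
          refine hkN.trans (pow_le_pow_left₀ (by positivity) ?_ m)
          calc (N : ℝ) ^ (1 / 2 : ℝ) ≤ (N : ℝ) ^ (1 : ℝ) :=
                Real.rpow_le_rpow_of_exponent_le hN1' (by norm_num)
            _ = N := Real.rpow_one _
            _ ≤ (N : ℝ) + 2 := by linarith
        have h4 : 14 / (k : ℝ) ^ 2 = 14 * (1 / (k : ℝ) ^ 2) := by ring
        linarith
      have t3 : 8 * Real.exp (-(1 / (2 * (C * (N : ℝ) ^ (-1 / 2 : ℝ))))) ≤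
          8 * (m.factorial * (2 * C) ^ m) * (1 / (k : ℝ) ^ 2) := by
        have hz : (1 : ℝ) / (2 * (C * (N : ℝ) ^ (-1 / 2 : ℝ))) = (N : ℝ) ^ (1 / 2 : ℝ) / (2 * C) := by
          rw [show (-1 / 2 : ℝ) = -(1 / 2) by norm_num, Real.rpow_neg hN0.le]
          field_simp
        have hzp : (0 : ℝ) < (N : ℝ) ^ (1 / 2 : ℝ) / (2 * C) := by positivity
        have h2 := Real.pow_div_factorial_le_exp _ hzp.le m
        have hf : (0 : ℝ) < (m.factorial : ℝ) := by exact_mod_cast m.factorial_pos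
        rw [hz, Real.exp_neg]
        have h3 : (k : ℝ) ^ 2 / (m.factorial * (2 * C) ^ m) ≤
            Real.exp ((N : ℝ) ^ (1 / 2 : ℝ) / (2 * C)) := by
          refine le_trans ?_ h2
          rw [div_pow, div_div, mul_comm ((2 * C) ^ m)]
          exact div_le_div_of_nonneg_right hkN (by positivity)
        have h4 : (Real.exp ((N : ℝ) ^ (1 / 2 : ℝ) / (2 * C)))⁻¹ ≤
            (m.factorial * (2 * C) ^ m) * (1 / (k : ℝ) ^ 2) := by
          rw [inv_le_comm₀ (Real.exp_pos _) (by positivity)]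
          refine le_trans (le_of_eq ?_) h3
          field_simp
        linarith
      have e2 : (1 + 56 + 8 * (m.factorial * (2 * C) ^ m)) * (1 / (k : ℝ) ^ 2) =
          1 / (k : ℝ) ^ 2 + 56 * (1 / (k : ℝ) ^ 2) +
            8 * (m.factorial * (2 * C) ^ m) * (1 / (k : ℝ) ^ 2) := by ring
      rw [e2]
      exact add_le_add (add_le_add t1 t2) t3
    · have e : Bd k = ∅ := if_neg hk
      rw [e, measure_empty]
      exact bot_le
  have hsum : ∑' N, P (Bd N) ≠ ⊤ := by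
    have h1 : Summable fun k : ℕ =>
        (1 + 56 + 8 * (m.factorial * (2 * C) ^ m)) * (1 / (k : ℝ) ^ 2) :=
      (Real.summable_one_div_nat_pow.2 (by norm_num)).mul_left _
    exact ne_top_of_le_ne_top h1.tsum_ofReal_ne_top (ENNReal.tsum_le_tsum hbound)
  filter_upwards [ae_eventually_notMem hsum] with ω hω
  filter_upwards [hω, eventually_ge_atTop k₀] with k hk1 hk2
  have e : Bd k = Bad k := if_pos hk2
  rw [e] at hk1
  exact not_lt.1 hk1

end Pool.Agent.H897.RO
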